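import Pool.Agent.Helper15.TS.St

set_option autoImplicit false

namespace Pool.Agent.Helper89.TS

open Pool.Agent.Helper22.FL Pool.Agent.Helper22.CS Pool.Agent.Helper15.TS

/-- integer combinations of `P` after multiplication by `d` -/
private def Good {n : ℕ} (P : Finset (Fin n → ℕ)) (d : ℕ) (z : Fin n → ℤ) : Prop :=
  ∃ m : (Fin n → ℕ) → ℤ, ∀ i, (d : ℤ) * z i = ∑ p ∈ P, m p * (p i : ℤ)

private lemma good_one {n : ℕ} (P : Finset (Fin n → ℕ)) (z : Fin n → ℤ)
    (hz : (fun i => (z i : ℚ)) ∈ spQ P) : ∃ d : ℕ, 1 ≤ d ∧ Good P d z := by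
  classical
  unfold spQ at hz
  obtain ⟨c, hc⟩ := (Submodule.mem_span_image_finset_iff_exists_fun' ℚ).1 hz
  set D : ℕ := ∏ p ∈ P, (c p).den with hD
  have hDpos : 0 < D := Finset.prod_pos fun p _ => (c p).den_pos
  have hint : ∀ p ∈ P, ∃ m : ℤ, (D : ℚ) * c p = (m : ℚ) := by
    intro p hp
    obtain ⟨k, hk⟩ := Finset.dvd_prod_of_mem (fun p => (c p).den) hp
    refine ⟨(k : ℤ) * (c p).num, ?_⟩
    have h1 : (c p) * ((c p).den : ℚ) = ((c p).num : ℚ) := Rat.mul_den_eq_num (c p)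
    rw [hD, hk]
    push_cast
    rw [← h1]
    ring
  choose! m hm using hint
  refine ⟨D, hDpos, m, fun i => ?_⟩
  have h2 := congrFun hc i
  have h3 : ((D : ℤ) * z i : ℤ) = ((∑ p ∈ P, m p * (p i : ℤ) : ℤ)) := by
    have h4 : (((D : ℤ) * z i : ℤ) : ℚ) = ((∑ p ∈ P, m p * (p i : ℤ) : ℤ) : ℚ) := by
      push_cast
      rw [← h2, Finset.sum_apply, Finset.mul_sum]
      refine Finset.sum_congr rfl fun p hp => ?_
      rw [← hm p hp]
      simp only [Pi.smul_apply, smul_eq_mul, toQ]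
      ring
    exact_mod_cast h4
  exact h3

theorem stmod : StMOD := by
  classical
  intro n P
  -- the lattice of integer vectors in the span
  let f : (Fin n → ℤ) →ₗ[ℤ] (Fin n → ℚ) :=
    { toFun := fun z i => (z i : ℚ)
      map_add' := by intro a b; funext i; simp
      map_smul' := by intro a b; funext i; simp }
  let N : Submodule ℤ (Fin n → ℤ) := ((spQ P).restrictScalars ℤ).comap f
  obtain ⟨S, hS⟩ := (IsNoetherian.noetherian N)
  have hmem : ∀ z : Fin n → ℤ, z ∈ N ↔ (fun i => (z i : ℚ)) ∈ spQ P := fun z => Iff.rfl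
  have hSN : ∀ z ∈ S, (fun i => (z i : ℚ)) ∈ spQ P := by
    intro z hz
    rw [← hmem, ← hS]
    exact Submodule.subset_span hz
  have hd : ∀ z ∈ S, ∃ d : ℕ, 1 ≤ d ∧ Good P d z := fun z hz => good_one P z (hSN z hz)
  choose! d hd1 hd2 using hd
  have hpos : 0 < ∏ z ∈ S, d z := Finset.prod_pos fun z hz => hd1 z hz
  refine ⟨∏ z ∈ S, d z, hpos, ?_⟩
  intro z hz
  rw [← hmem, ← hS] at hz
  change Good P (∏ z ∈ S, d z) z
  refine Submodule.span_induction (p := fun z _ => Good P (∏ z ∈ S, d z) z) ?_ ?_ ?_ ?_ hz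
  · intro y hy
    obtain ⟨m, hm⟩ := hd2 y hy
    obtain ⟨k, hk⟩ := Finset.dvd_prod_of_mem d hy
    refine ⟨fun p => k * m p, fun i => ?_⟩
    rw [hk]
    push_cast
    rw [mul_comm (d y : ℤ) (k : ℤ), mul_assoc, hm i, Finset.mul_sum]
    refine Finset.sum_congr rfl fun p _ => ?_
    ring
  · exact ⟨fun _ => 0, fun i => by simp⟩
  · rintro x y _ _ ⟨m, hm⟩ ⟨m', hm'⟩
    refine ⟨fun p => m p + m' p, fun i => ?_⟩
    rw [Pi.add_apply, mul_add, hm i, hm' i, ← Finset.sum_add_distrib]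
    refine Finset.sum_congr rfl fun p _ => ?_
    ring
  · rintro a x _ ⟨m, hm⟩
    refine ⟨fun p => a * m p, fun i => ?_⟩
    rw [Pi.smul_apply, smul_eq_mul, mul_left_comm, hm i, Finset.mul_sum]
    refine Finset.sum_congr rfl fun p _ => ?_
    ring

end Pool.Agent.Helper89.TS
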