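import Pool.Agent.Helper12.TS.StB

/-!
# Project TS (MP_d63854_co), module PRC
-/

set_option autoImplicit false

namespace Pool.Agent.Helper89.TS

open Pool.Agent.Helper12.TS
open Pool.Agent.Helper51.AJ (IsMinor Planar Apex ExMinor Con Tch)
open Pool.Agent.Helper12.NK (rst Kc add)

private theorem tmono {V : Type} {G : SimpleGraph V} {T K L : Set V} (h : Tch G T K) (hKL : K ⊆ L) :
    Tch G T L := by
  obtain ⟨x, hx, y, hy, hxy⟩ := h
  exact ⟨x, hx, y, hKL hy, hxy⟩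

/-- the component of `B \ {v}` which contains `x` -/
private theorem cover (hC : StCMP) {V : Type} [Finite V] {G : SimpleGraph V} {S B : Set V}
    (hB : Cmp G S B) {v x : V} (hx : x ∈ B) (hxv : x ≠ v) :
    ∃ K, Cmp G (insert v S) K ∧ K ⊆ B ∧ x ∈ K := by
  have hxS : x ∉ S := fun h => Set.disjoint_left.1 hB.1 hx h
  obtain ⟨K, hK, hxK⟩ := (hC V G (insert v S)).1 x (by
    rw [Set.mem_insert_iff]
    rintro (h | h)
    · exact hxv h
    · exact hxS h)
  refine ⟨K, hK, ?_, hxK⟩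
  exact (hC V G S).2.2.1 B K hB hK.2.1
    (hK.1.mono_right (Set.subset_insert v S)) ⟨x, hxK, hx⟩

/-- every element of `S` touches a component of `B \ {v}` -/
private theorem touch (hC : StCMP) {V : Type} [Finite V] {G : SimpleGraph V} {S B : Set V}
    (hB : Cmp G S B) (v : V) {t : V} (ht : 2 ≤ {x | x ∈ B ∧ G.Adj t x}.ncard) :
    ∃ K, Cmp G (insert v S) K ∧ K ⊆ B ∧ Tch G {t} K := by
  obtain ⟨x, hx, hxv⟩ : ∃ x ∈ {x | x ∈ B ∧ G.Adj t x}, x ≠ v := by
    obtain ⟨a, ha, b, hb, hab⟩ := (Set.one_lt_ncard (Set.toFinite _)).1 (by omega :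
      1 < {x | x ∈ B ∧ G.Adj t x}.ncard)
    by_cases h : a = v
    · exact ⟨b, hb, fun h' => hab (h.trans h'.symm)⟩
    · exact ⟨a, ha, h⟩
  obtain ⟨K, h1, h2, h3⟩ := cover hC hB hx.1 hxv
  exact ⟨K, h1, h2, t, rfl, x, h3, hx.2⟩

private theorem third {V : Type} {S : Set V} (hS : S.ncard = 3) {a b : V} (ha : a ∈ S)
    (hb : b ∈ S) (hab : a ≠ b) : ∃ c ∈ S, c ≠ a ∧ c ≠ b ∧ ∀ s ∈ S, s = a ∨ s = b ∨ s = c := by
  obtain ⟨x, y, z, hxy, hxz, hyz, rfl⟩ := Set.ncard_eq_three.1 hS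
  simp only [Set.mem_insert_iff, Set.mem_singleton_iff] at ha hb ⊢
  rcases ha with rfl | rfl | rfl <;> rcases hb with rfl | rfl | rfl
  · exact absurd rfl hab
  · exact ⟨z, by simp, hxz.symm, hyz.symm, fun s hs => by tauto⟩
  · exact ⟨y, by simp, hxy.symm, hyz, fun s hs => by tauto⟩
  · exact ⟨z, by simp, hyz.symm, hxz.symm, fun s hs => by tauto⟩
  · exact absurd rfl hab
  · exact ⟨x, by simp, hxy, hxz, fun s hs => by tauto⟩
  · exact ⟨y, by simp, hyz, hxy.symm, fun s hs => by tauto⟩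
  · exact ⟨x, by simp, hxz, hxy, fun s hs => by tauto⟩
  · exact absurd rfl hab

theorem hPRC : StCMP → StPRC := by
  intro hC V _ G S B hG hS hB hdeg
  refine ⟨?_, ?_⟩
  · intro v hv
    have hvS : v ∉ S := fun h => Set.disjoint_left.1 hB.1 hv h
    by_cases hPa : Pa G S B v
    · exact Or.inl hPa
    by_cases hPb : Pb G S B v
    · exact Or.inr (Or.inl hPb)
    refine Or.inr (Or.inr ?_)
    unfold Pb at hPb
    push Not at hPb
    obtain ⟨a, ha, b, hb, hab, hno⟩ := hPb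
    obtain ⟨c, hc, hca, hcb, hall⟩ := third hS ha hb hab
    refine ⟨c, hc, ?_, ?_⟩
    · intro K hK hKB
      have htwo := (hC V G S).2.2.2.2.1 hG hS v hvS K hK
      constructor
      · by_contra hcK
        obtain ⟨s, hs, hs'⟩ := hno K hK hKB
        obtain ⟨t1, h1, h1a, h1K⟩ := htwo a
        obtain ⟨t2, h2, h2b, h2K⟩ := htwo b
        have e1 : t1 = b := by
          rcases hall t1 h1 with h | h | h
          · exact absurd h h1a
          · exact h
          · exact absurd (h ▸ h1K) hcK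
        have e2 : t2 = a := by
          rcases hall t2 h2 with h | h | h
          · exact h
          · exact absurd h h2b
          · exact absurd (h ▸ h2K) hcK
        subst e1
        subst e2
        rcases hs' with ⟨h3, h4, h5⟩ | ⟨h3, h4⟩
        · rcases hall s hs with h | h | h
          · exact h4 h
          · exact h5 h
          · exact hcK (h ▸ h3)
        · rcases h4 with h | h
          · exact h3 (h ▸ h2K)
          · exact h3 (h ▸ h1K)
      · by_contra hcon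
        push Not at hcon
        exact hPa ⟨K, hK, hKB, hcon⟩
    · intro t ht _
      exact touch hC hB v (hdeg t ht)
  · intro v hv v' hv' c hc c' hc' hP hP'
    by_contra hcc
    obtain ⟨u, hu, huc, huc', hall⟩ := third hS hc hc' hcc
    have hvv : v ≠ v' := by
      rintro rfl
      obtain ⟨K, hK, hKB, hKu⟩ := hP.2 u hu huc
      obtain ⟨t, ht, htK⟩ := (hP.1 K hK hKB).2
      rcases hall t ht with h | h | h
      · exact htK (h ▸ (hP.1 K hK hKB).1)
      · exact htK (h ▸ (hP'.1 K hK hKB).1)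
      · exact htK (h ▸ hKu)
    obtain ⟨K₀, hK₀, hK₀B, hv'K₀⟩ := cover hC hB hv' (Ne.symm hvv)
    obtain ⟨L₀, hL₀, hL₀B, hvL₀⟩ := cover hC hB hv hvv
    have hvK₀ : v ∉ K₀ := fun h => Set.disjoint_left.1 hK₀.1 h (Set.mem_insert v S)
    have hcon : Con G (B \ K₀) := by
      refine ((hC V G S).2.2.2.2.2.2 B K₀ v hB.2.1 hv ⟨?_, hK₀.2.1, ?_⟩).2
      · rw [Set.disjoint_left]
        intro x hx hx'
        exact hx' ⟨hK₀B hx, fun h => hvK₀ (by rw [← Set.mem_singleton_iff.1 h]; exact hx)⟩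
      · intro x hx y hy hxy
        rw [Set.mem_compl_iff, not_not] at hy
        refine hK₀.2.2 x hx y ?_ hxy
        rw [Set.mem_insert_iff]
        rintro (h | h)
        · exact hy.2 h
        · exact Set.disjoint_left.1 hB.1 hy.1 h
    have hsub : B \ K₀ ⊆ L₀ := by
      refine (hC V G (insert v' S)).2.2.1 L₀ (B \ K₀) hL₀ hcon ?_ ⟨v, ⟨hv, hvK₀⟩, hvL₀⟩
      rw [Set.disjoint_left]
      intro x hx hx'
      rcases Set.mem_insert_iff.1 hx' with h | h
      · exact hx.2 (h ▸ hv'K₀)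
      · exact Set.disjoint_left.1 hB.1 hx.1 h
    have hdis := (hC V G (insert v S)).2.1
    have hin : ∀ K, Cmp G (insert v S) K → K ⊆ B → K ≠ K₀ → K ⊆ L₀ := by
      intro K hK hKB hne x hx
      exact hsub ⟨hKB hx, fun h => Set.disjoint_left.1 (hdis K K₀ hK hK₀ hne) hx h⟩
    obtain ⟨K₁, hK₁, hK₁B, hK₁u⟩ := hP.2 u hu huc
    obtain ⟨K₂, hK₂, hK₂B, hK₂c'⟩ := hP.2 c' hc' (Ne.symm hcc)
    have hK₁c' : ¬ Tch G {c'} K₁ := by
      intro h1
      obtain ⟨t, ht, htK⟩ := (hP.1 K₁ hK₁ hK₁B).2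
      rcases hall t ht with h | h | h
      · exact htK (h ▸ (hP.1 K₁ hK₁ hK₁B).1)
      · exact htK (h ▸ h1)
      · exact htK (h ▸ hK₁u)
    have hK₁₂ : K₁ ≠ K₂ := by
      rintro rfl
      exact hK₁c' hK₂c'
    obtain ⟨hL₀c', t₀, ht₀, ht₀L⟩ := hP'.1 L₀ hL₀ hL₀B
    by_cases h1 : K₁ = K₀
    · -- `K₂ ⊆ L₀`
      have hK₂L := hin K₂ hK₂ hK₂B (fun h => hK₁₂ (h1.trans h.symm))
      have hLc : Tch G {c} L₀ := tmono (hP.1 K₂ hK₂ hK₂B).1 hK₂L
      have ht₀u : t₀ = u := by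
        rcases hall t₀ ht₀ with h | h | h
        · exact absurd (h ▸ hLc) ht₀L
        · exact absurd (h ▸ hL₀c') ht₀L
        · exact h
      obtain ⟨L₁, hL₁, hL₁B, hL₁u⟩ := hP'.2 u hu huc'
      have hne : L₁ ≠ L₀ := by
        rintro rfl
        exact ht₀L (ht₀u ▸ hL₁u)
      have hL₁K : L₁ ⊆ K₀ := by
        intro x hx
        by_contra hxK
        exact Set.disjoint_left.1 ((hC V G (insert v' S)).2.1 L₁ L₀ hL₁ hL₀ hne) hx
          (hsub ⟨hL₁B hx, hxK⟩)
      apply hK₁c'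
      rw [h1]
      exact tmono (hP'.1 L₁ hL₁ hL₁B).1 hL₁K
    · have hK₁L := hin K₁ hK₁ hK₁B h1
      rcases hall t₀ ht₀ with h | h | h
      · exact ht₀L (h ▸ tmono (hP.1 K₁ hK₁ hK₁B).1 hK₁L)
      · exact ht₀L (h ▸ hL₀c')
      · exact ht₀L (h ▸ tmono hK₁u hK₁L)

end Pool.Agent.Helper89.TS
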